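import Pool.Agent.Q226.FL2.Defs
import Pool.Agent.H630VC.FreeModel

/-!
# Graphs with tagged edges

Every edge carries a tag from `Fin K`: the input has a bit for each position `(e, k)`, where `e` is a
pair of vertices, which tells whether there is an edge `e` with the tag `k`.
-/

set_option autoImplicit false

namespace Pool.Agent.Q226.VCF

/-- no two parallel edges: at most one tag for each pair of vertices -/
def NoParallelEdges {V : Type} {K : ℕ} (x : Sym2 V × Fin K → Bool) : Prop :=
  ∀ e k k', x (e, k) = true → x (e, k') = true → k = k'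

/-- the graph on the vertex set `V`, without the tags (loops are ignored) -/
def tgraph {V : Type} {K : ℕ} (x : Sym2 V × Fin K → Bool) : SimpleGraph V :=
  SimpleGraph.fromEdgeSet {e | ∃ k, x (e, k) = true}

/-- `a` lies between the least size of a vertex cover of `G` and `ρ` times this size -/
def Approximates {V : Type} (ρ : ℝ) (a : ℝ) (G : SimpleGraph V) : Prop :=
  (∃ C : Finset V, H630VC.IsCover G C ∧ (C.card : ℝ) ≤ a) ∧
    ∀ C : Finset V, H630VC.IsCover G C → a ≤ ρ * C.card

/-- `S` is a vertex cover of `G` whose size is at most `ρ` times the least size of a vertex cover -/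
def IsApproximateCover {V : Type} (ρ : ℝ) (S : Finset V) (G : SimpleGraph V) : Prop :=
  H630VC.IsCover G S ∧ ∀ C : Finset V, H630VC.IsCover G C → (S.card : ℝ) ≤ ρ * C.card

open Classical in
/-- The randomised circuit with the members `l ω` approximates the least size of a vertex cover
within the ratio `ρ`, or prints a vertex cover, when each negated input is stuck at `0` with
probability `1 / D`: it has a value gate `out ω` which for each input without parallel edges whose
graph belongs to `𝓖` is right with probability at least `4 / 5` over `ω` and the faults, or gates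
`c ω v` such that for each such input with probability at least `4 / 5` the vertices `v` with
`1 ≤ c ω v` form a `ρ`-approximate vertex cover. -/
def SolvesUnderFaults {V Ω : Type} [Fintype V] {K : ℕ} (ρ : ℝ) (D : ℕ)
    (l : Ω → List ((((Sym2 V × Fin K) × Bool) → Bool) → ℝ)) (𝓖 : Set (SimpleGraph V)) : Prop :=
  (∃ out : Ω → ((((Sym2 V × Fin K) × Bool) → Bool) → ℝ), (∀ ω, out ω ∈ l ω) ∧
    ∀ x : Sym2 V × Fin K → Bool, NoParallelEdges x → tgraph x ∈ 𝓖 →
      4 / 5 ≤ FL2.faultyProbability (fun ω y => Approximates ρ (out ω y) (tgraph x)) D x) ∨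
  ∃ c : Ω → V → ((((Sym2 V × Fin K) × Bool) → Bool) → ℝ), (∀ ω v, c ω v ∈ l ω) ∧
    ∀ x : Sym2 V × Fin K → Bool, NoParallelEdges x → tgraph x ∈ 𝓖 →
      4 / 5 ≤ FL2.faultyProbability (fun ω y =>
        IsApproximateCover ρ (Finset.univ.filter fun v => 1 ≤ c ω v y) (tgraph x)) D x

end Pool.Agent.Q226.VCF
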