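import Pool.Agent.Q226.VCF.Defs
import Pool.Agent.Q226.FL2.Gen

/-! # The lower bound for vertex cover with unreliable negations -/

set_option autoImplicit false

open Finset

namespace Pool.Agent.Q226.VCF

open Pool.Agent.Q226.FLT Pool.Agent.Q226.FL2 H630VC

variable {V : Type} {K : ℕ}

open Classical in
/-- the adjacency bits -/
noncomputable def enc (G : SimpleGraph V) : Sym2 V → Bool := fun e => decide (e ∈ G.edgeSet)

lemma noParallel_host (t : Sym2 V → Fin K) (G : Sym2 V → Bool) : NoParallelEdges (host t G) := by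
  intro e k k' h h'
  unfold host at h h'
  simp only [Bool.and_eq_true, decide_eq_true_eq] at h h'
  rw [h.2, h'.2]

lemma tgraph_host (t : Sym2 V → Fin K) (G : SimpleGraph V) : tgraph (host t (enc G)) = G := by
  have h1 : {e | ∃ k, host t (enc G) (e, k) = true} = G.edgeSet := by
    ext e
    unfold host enc
    simp
  unfold tgraph
  rw [h1, SimpleGraph.fromEdgeSet_edgeSet]

lemma approx_iff (ρ a : ℝ) (f : WGraph V → ℝ) (G : SimpleGraph V) (h : f (unit G) = a) :
    Approximates ρ a G ↔ ApproxVC ρ f (unit G) := by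
  have h1 : ∀ C : Finset V, ∑ v ∈ C, (unit G).w v = C.card := by
    intro C
    simp [unit]
  unfold Approximates ApproxVC
  simp only [h1, h]
  rfl

open Classical in
lemma prints_iff [Fintype V] (ρ : ℝ) (c : V → ℝ) (f : V → WGraph V → ℝ) (G : SimpleGraph V)
    (h : ∀ v, f v (unit G) = c v) :
    IsApproximateCover ρ (univ.filter fun v => 1 ≤ c v) G ↔ PrintsVC ρ f (unit G) := by
  have h1 : ∀ C : Finset V, ∑ v ∈ C, (unit G).w v = C.card := by
    intro C
    simp [unit]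
  unfold IsApproximateCover PrintsVC
  simp only [h1, h]
  rfl

open Classical in
/-- the transfer for vertex cover -/
theorem solves [Fintype V] [DecidableEq V] {D : ℕ} [NeZero D] (hK0 : 0 < K)
    (hK : 800 * D * Fintype.card (Sym2 V) ≤ K) {ρ : ℝ}
    {Ω : Type} [Fintype Ω] [Nonempty Ω]
    {l : Ω → List ((((Sym2 V × Fin K) × Bool) → Bool) → ℝ)}
    {q : Ω → List (List (((((Sym2 V × Fin K) × Bool) → Bool) → ℝ) × ℝ))}
    (hl : ∀ ω, FProg (litInputs (Sym2 V × Fin K)) (l ω) (q ω)) {𝓖 : Set (SimpleGraph V)}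
    (hs : SolvesUnderFaults ρ D l 𝓖) :
    ∃ (l' : Ω × (Sym2 V → Fin K) × (Sym2 V → Fin K → Fin D) → List (WGraph V → ℝ))
      (q' : Ω × (Sym2 V → Fin K) × (Sym2 V → Fin K → Fin D) → List (List ((WGraph V → ℝ) × ℝ))),
      (∀ o, FProg (wInputs V) (l' o) (q' o)) ∧ (∀ o, (l' o).length = (l o.1).length) ∧
      (∀ o, wires (q' o) = wires (q o.1)) ∧ (∀ o, combos (q' o) = combos (q o.1)) ∧
      RSolves ρ l' (unit '' 𝓖) := by
  set sub : Ω × (Sym2 V → Fin K) × (Sym2 V → Fin K → Fin D) → WGraph V →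
      (((Sym2 V × Fin K) × Bool) → Bool) := fun o x => rl o.2.1 o.2.2 (enc x.G) with hsub
  have hη : (2 * D * Fintype.card (Sym2 V) : ℝ) ≤ (1 / 20) ^ 2 * K := by
    have h2 : (800 * D * Fintype.card (Sym2 V) : ℝ) ≤ K := by exact_mod_cast hK
    have h3 : (2 * D * Fintype.card (Sym2 V) : ℝ) = (800 * D * Fintype.card (Sym2 V)) / 400 := by
      ring
    rw [h3]
    have h4 : ((1 : ℝ) / 20) ^ 2 * K = K / 400 := by ring
    rw [h4]
    exact div_le_div_of_nonneg_right h2 (by norm_num)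
  refine ⟨fun o => (l o.1).map fun f x => f (sub o x),
    fun o => (q o.1).map fun w => w.map fun p => ((fun x => p.1 (sub o x)), p.2), fun o => ?_,
    fun o => List.length_map _, fun o => wires_map (sub o) (q o.1), fun o => combos_map _ _, ?_⟩
  · refine FProg.comap (sub o) ?_ (hl o.1)
    refine rl_input (inp := wInputs V) (fun x : WGraph V => enc x.G) (fun e => ?_)
      (fun c => Or.inr (Or.inr ⟨c, rfl⟩)) o.2.1 o.2.2
    induction e using Sym2.ind with
    | _ u v =>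
      refine Or.inl ⟨u, v, ?_⟩
      funext x
      unfold enc
      by_cases h : x.G.Adj u v
      · simp [h]
      · simp [h]
  · rcases hs with ⟨out, hout, hs⟩ | ⟨c, hc, hs⟩
    · left
      refine ⟨fun o x => out o.1 (sub o x), fun o =>
        List.mem_map_of_mem (f := fun f x => f (sub o x)) (hout o.1), ?_⟩
      rintro x ⟨G, hG, rfl⟩
      have h1 := transfer (η := 1 / 20) hK0 (by norm_num) (by norm_num) hη
        (fun ω y => Approximates ρ (out ω y) G) (enc G) (A := 4 / 5) (fun t => by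
          have h3 := hs (host t (enc G)) (noParallel_host t (enc G))
          rw [tgraph_host t G] at h3
          exact h3 hG)
      have h4 : ((4 / 5 : ℝ) - 1 / 20) * Fintype.card (Ω × (Sym2 V → Fin K) ×
          (Sym2 V → Fin K → Fin D)) ≤ (univ.filter fun o : Ω × (Sym2 V → Fin K) ×
          (Sym2 V → Fin K → Fin D) =>
            ApproxVC ρ (fun x => out o.1 (sub o x)) (unit G)).card := by
        refine h1.trans (le_of_eq (congrArg (fun m : ℕ => (m : ℝ)) (congrArg Finset.card ?_)))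
        ext o
        simp only [mem_filter, mem_univ, true_and]
        exact approx_iff ρ _ _ G rfl
      have h6 : (3 * Fintype.card (Ω × (Sym2 V → Fin K) × (Sym2 V → Fin K → Fin D)) : ℝ) ≤
          4 * (univ.filter fun o : Ω × (Sym2 V → Fin K) × (Sym2 V → Fin K → Fin D) =>
            ApproxVC ρ (fun x => out o.1 (sub o x)) (unit G)).card := by
        linarith
      exact_mod_cast h6
    · right
      refine ⟨fun o v x => c o.1 v (sub o x), fun o v =>
        List.mem_map_of_mem (f := fun f x => f (sub o x)) (hc o.1 v), ?_⟩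
      rintro x ⟨G, hG, rfl⟩
      have h1 := transfer (η := 1 / 20) hK0 (by norm_num) (by norm_num) hη
        (fun ω y => IsApproximateCover ρ (Finset.univ.filter fun v => 1 ≤ c ω v y) G) (enc G)
        (A := 4 / 5) (fun t => by
          have h3 := hs (host t (enc G)) (noParallel_host t (enc G))
          rw [tgraph_host t G] at h3
          exact h3 hG)
      have h4 : ((4 / 5 : ℝ) - 1 / 20) * Fintype.card (Ω × (Sym2 V → Fin K) ×
          (Sym2 V → Fin K → Fin D)) ≤ (univ.filter fun o : Ω × (Sym2 V → Fin K) ×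
          (Sym2 V → Fin K → Fin D) =>
            PrintsVC ρ (fun v x => c o.1 v (sub o x)) (unit G)).card := by
        refine h1.trans (le_of_eq (congrArg (fun m : ℕ => (m : ℝ)) (congrArg Finset.card ?_)))
        ext o
        simp only [mem_filter, mem_univ, true_and]
        exact prints_iff ρ _ _ G (fun v => rfl)
      have h6 : (3 * Fintype.card (Ω × (Sym2 V → Fin K) × (Sym2 V → Fin K → Fin D)) : ℝ) ≤
          4 * (univ.filter fun o : Ω × (Sym2 V → Fin K) × (Sym2 V → Fin K → Fin D) =>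
            PrintsVC ρ (fun v x => c o.1 v (sub o x)) (unit G)).card := by
        linarith
      exact_mod_cast h6

/-- graphs with a fixed perfect matching, ratio below two -/
theorem main_pm (c : ℝ) (hc : c < 2) (α : ℝ) (hα : 0 ≤ α) (hα2 : α < 1 / 2) :
    ∃ N : ℕ, ∀ n : ℕ, N ≤ n → ∀ D K : ℕ, 1 ≤ D → 2400 * D * n ^ 2 ≤ K →
      ∀ (Ω : Type) [Fintype Ω] [Nonempty Ω]
        (l : Ω → List ((((Sym2 (Fin n ⊕ Fin n) × Fin K) × Bool) → Bool) → ℝ))
        (q : Ω → List (List (((((Sym2 (Fin n ⊕ Fin n) × Fin K) × Bool) → Bool) → ℝ) × ℝ))),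
      (∀ ω, FProg (litInputs (Sym2 (Fin n ⊕ Fin n) × Fin K)) (l ω) (q ω)) →
      SolvesUnderFaults c D l (pmGraphs n) →
      (∀ ω, (combos (q ω) : ℝ) ≤ (n : ℝ) ^ α) →
      ∃ ω, (2 : ℝ) ^ ((n : ℝ) ^ ((1 - 2 * α) / 7)) ≤ (l ω).length + wires (q ω) := by
  obtain ⟨N, hN⟩ := asymp_rand_pm c hc α hα hα2
  refine ⟨N + 1, fun n hn D K hD hK Ω _ _ l q hl hs hq => ?_⟩
  have : NeZero D := ⟨by omega⟩
  have hn1 : 1 ≤ n := by omega
  have hK0 : 0 < K := by
    have : 0 < 2400 * D * n ^ 2 := by positivity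
    omega
  have : Nonempty (Fin K) := ⟨⟨0, hK0⟩⟩
  have : Nonempty (Fin D) := ⟨0⟩
  have hcard : Fintype.card (Sym2 (Fin n ⊕ Fin n)) ≤ 3 * n ^ 2 := by
    rw [Sym2.card, Fintype.card_sum, Fintype.card_fin, Nat.choose_two_right]
    apply Nat.div_le_of_le_mul
    have h1 : n + n + 1 - 1 = 2 * n := by omega
    rw [h1]
    nlinarith
  obtain ⟨l', q', h1, h2, h3, h4, h5⟩ := solves (V := Fin n ⊕ Fin n) hK0 (by
    calc 800 * D * Fintype.card (Sym2 (Fin n ⊕ Fin n)) ≤ 800 * D * (3 * n ^ 2) :=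
          Nat.mul_le_mul_left _ hcard
      _ = 2400 * D * n ^ 2 := by ring
      _ ≤ K := hK) hl hs
  obtain ⟨o, ho⟩ := hN n (by omega) _ l' q' h1 h5 (fun o => by rw [h4]; exact hq o.1)
  refine ⟨o.1, ?_⟩
  rw [h2, h3] at ho
  exact ho

/-- all graphs, growing ratio -/
theorem main_all (η : ℝ) (hη : 0 < η) (hη2 : η ≤ 1 / 2) :
    ∃ N : ℕ, ∀ n : ℕ, N ≤ n → ∀ D K : ℕ, 1 ≤ D → 800 * D * n ^ 2 ≤ K → ∀ ρ : ℝ, 1 ≤ ρ →
      ∀ (Ω : Type) [Fintype Ω] [Nonempty Ω]
        (l : Ω → List ((((Sym2 (Fin n) × Fin K) × Bool) → Bool) → ℝ))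
        (q : Ω → List (List (((((Sym2 (Fin n) × Fin K) × Bool) → Bool) → ℝ) × ℝ))),
      (∀ ω, FProg (litInputs (Sym2 (Fin n) × Fin K)) (l ω) (q ω)) →
      SolvesUnderFaults ρ D l Set.univ →
      (∀ ω, ρ * combos (q ω) ≤ (n : ℝ) ^ (1 / 2 - η)) →
      ∃ ω, (2 : ℝ) ^ ((n : ℝ) ^ (η / 4)) ≤ (l ω).length + wires (q ω) := by
  obtain ⟨N, hN⟩ := asymp_rand_all η hη hη2
  refine ⟨N + 1, fun n hn D K hD hK ρ hρ Ω _ _ l q hl hs hq => ?_⟩
  have : NeZero D := ⟨by omega⟩
  have hn1 : 1 ≤ n := by omega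
  have hK0 : 0 < K := by
    have : 0 < 800 * D * n ^ 2 := by positivity
    omega
  have : Nonempty (Fin K) := ⟨⟨0, hK0⟩⟩
  have : Nonempty (Fin D) := ⟨0⟩
  have hcard : Fintype.card (Sym2 (Fin n)) ≤ n ^ 2 := by
    rw [Sym2.card, Fintype.card_fin, Nat.choose_two_right]
    apply Nat.div_le_of_le_mul
    have h1 : n + 1 - 1 = n := by omega
    rw [h1]
    nlinarith
  obtain ⟨l', q', h1, h2, h3, h4, h5⟩ := solves (V := Fin n) hK0 (by
    calc 800 * D * Fintype.card (Sym2 (Fin n)) ≤ 800 * D * n ^ 2 :=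
          Nat.mul_le_mul_left _ hcard
      _ ≤ K := hK) hl hs
  obtain ⟨o, ho⟩ := hN n (by omega) ρ hρ _ l' q' h1 h5 (fun o => by rw [h4]; exact hq o.1)
  refine ⟨o.1, ?_⟩
  rw [h2, h3] at ho
  exact ho

end Pool.Agent.Q226.VCF
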